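import Pool.Agent.LD6.Fin

/-!
# Claw centres in 6-connected graphs without a `K₆` minor

In a 6-connected graph without a `K₆` minor every vertex that is not the centre of an induced claw
has degree exactly six and is adjacent to the centre of an induced claw.
-/

set_option autoImplicit false

namespace Pool.Agent.Results.MP_1fb202_co.ClawCentres

open Pool.Agent.LG6

/-- `v` is the centre of an induced claw `K_{1,3}`: it has three pairwise non-adjacent neighbours. -/
def IsClawCentre {V : Type} (G : SimpleGraph V) (v : V) : Prop :=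
  ∃ a b c : V, G.Adj v a ∧ G.Adj v b ∧ G.Adj v c ∧ a ≠ b ∧ a ≠ c ∧ b ≠ c ∧
    ¬ G.Adj a b ∧ ¬ G.Adj a c ∧ ¬ G.Adj b c

/-- In a finite 6-connected graph without a `K₆` minor every vertex is the centre of an induced claw,
or has degree exactly six and a neighbour that is the centre of an induced claw. -/
theorem result (V : Type) [Fintype V] (G : SimpleGraph V) (h6 : IsKConnected 6 G)
    (hm : ¬ HasCompleteMinor 6 G) (v : V) :
    IsClawCentre G v ∨
      ((G.neighborSet v).ncard = 6 ∧ ∃ w : V, G.Adj v w ∧ IsClawCentre G w) := by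
  classical
  have key : ∀ x, ¬ IsClawCentre G x → LD6.NC G x := by
    intro x hx a b c ha hb hc hab hac hbc
    by_contra hno
    push Not at hno
    exact hx ⟨a, b, c, ha, hb, hc, hab, hac, hbc, hno.1, hno.2.1, hno.2.2⟩
  have key' : ∀ x, ¬ LD6.NC G x → IsClawCentre G x := by
    intro x hx
    by_contra hno
    exact hx (key x hno)
  by_cases hv : IsClawCentre G v
  · exact Or.inl hv
  · right
    have hN : ∀ x, x ∈ Finset.univ.filter (fun x => G.Adj v x) ↔ G.Adj v x := fun x => by
      rw [Finset.mem_filter]
      exact ⟨fun h => h.2, fun h => ⟨Finset.mem_univ _, h⟩⟩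
    have h1 := LD6.nc_card h6 hm hN (key v hv)
    refine ⟨?_, ?_⟩
    · have h2 : G.neighborSet v = ↑(Finset.univ.filter fun x => G.Adj v x) := by
        ext x
        rw [SimpleGraph.mem_neighborSet, Finset.mem_coe, hN]
      rw [h2, Set.ncard_coe_finset, h1]
    · obtain ⟨w, hw, hw'⟩ := LD6.local_claw h6 hm (key v hv)
      exact ⟨w, hw, key' w hw'⟩

end Pool.Agent.Results.MP_1fb202_co.ClawCentres
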