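import Pool.Agent.LI7.Fin

/-!
# Vertices with few claw centres among their neighbours

Let `G` be a finite 6-connected graph without a `K₆` minor, and let `v` be a vertex that is not the
centre of an induced claw and has three neighbours that are not centres of induced claws either. Then `G`
is apex: for some vertex `p` the graph `G - p` has neither a `K₅` nor a `K₃,₃` minor. So in a
counterexample to Jorgensen's conjecture every vertex that is not a claw centre (such a vertex has exactly
six neighbours) has at least four neighbours that are claw centres.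
-/

set_option autoImplicit false

namespace Pool.Agent.Results.MP_1fb202_co.FewClawNeighbours

open Pool.Agent.LG6

/-- `v` is the centre of an induced claw `K_{1,3}`: it has three pairwise non-adjacent neighbours. -/
def IsClawCentre {V : Type} (G : SimpleGraph V) (v : V) : Prop :=
  ∃ a b c : V, G.Adj v a ∧ G.Adj v b ∧ G.Adj v c ∧ a ≠ b ∧ a ≠ c ∧ b ≠ c ∧
    ¬ G.Adj a b ∧ ¬ G.Adj a c ∧ ¬ G.Adj b c

/-- `G - p` has neither a `K₅` minor nor a `K₃,₃` minor, that is (Wagner) `G - p` is planar. -/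
def PlanarWithout {V : Type} (G : SimpleGraph V) (p : V) : Prop :=
  (¬ ∃ B : Fin 5 → Set V,
      (∀ i, p ∉ B i) ∧
      (∀ i, (G.induce (B i)).Connected) ∧
      (∀ i j, i ≠ j → Disjoint (B i) (B j)) ∧
      (∀ i j, i ≠ j → ∃ x ∈ B i, ∃ y ∈ B j, G.Adj x y)) ∧
  (¬ ∃ B : Fin 6 → Set V,
      (∀ i, p ∉ B i) ∧
      (∀ i, (G.induce (B i)).Connected) ∧
      (∀ i j, i ≠ j → Disjoint (B i) (B j)) ∧
      (∀ i j : Fin 6, i.val < 3 → 3 ≤ j.val → ∃ x ∈ B i, ∃ y ∈ B j, G.Adj x y))

theorem planarWithout_of {V : Type} {G : SimpleGraph V} {p : V} (h : LR5.NoMin G {p}) :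
    PlanarWithout G p := by
  constructor
  · rintro ⟨B, hp, hc, hd, ha⟩
    exact h.1 ⟨B, ⟨hc, hd, ha⟩, fun i => Set.disjoint_singleton_right.2 (hp i)⟩
  · rintro ⟨B, hp, hc, hd, ha⟩
    refine h.2 ⟨fun i => B (Fin.castAdd 3 i), fun i => B (Fin.natAdd 3 i), ?_, fun i =>
      Set.disjoint_singleton_right.2 (hp _), fun i => Set.disjoint_singleton_right.2 (hp _)⟩
    refine ⟨fun i => hc _, fun i => hc _, fun i j hij => hd _ _ ?_, fun i j hij => hd _ _ ?_,
      fun i j => hd _ _ ?_, fun i j => ha _ _ ?_ ?_⟩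
    · intro h'
      exact hij (Fin.castAdd_injective 3 3 h')
    · intro h'
      exact hij (Fin.natAdd_injective 3 3 h')
    · intro h'
      have h1 := congrArg Fin.val h'
      simp only [Fin.val_castAdd, Fin.val_natAdd] at h1
      omega
    · simp only [Fin.val_castAdd]
      omega
    · simp only [Fin.val_natAdd]
      omega

/-- A 6-connected graph without a `K₆` minor is apex if it has a vertex `v` such that `v` and three of
its neighbours are not claw centres. -/
theorem result (V : Type) [Fintype V] (G : SimpleGraph V) (h6 : IsKConnected 6 G)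
    (hm : ¬ HasCompleteMinor 6 G) (v : V) (hv : ¬ IsClawCentre G v)
    (hl : ∃ x y z : V, x ≠ y ∧ x ≠ z ∧ y ≠ z ∧ G.Adj v x ∧ G.Adj v y ∧ G.Adj v z ∧
      ¬ IsClawCentre G x ∧ ¬ IsClawCentre G y ∧ ¬ IsClawCentre G z) :
    ∃ p : V, PlanarWithout G p := by
  classical
  have key : ∀ x, ¬ IsClawCentre G x → LD6.NC G x := by
    intro x hx a b c ha hb hc hab hac hbc
    by_contra hno
    push Not at hno
    exact hx ⟨a, b, c, ha, hb, hc, hab, hac, hbc, hno.1, hno.2.1, hno.2.2⟩
  obtain ⟨x, y, z, hxy, hxz, hyz, hx, hy, hz, nx, ny, nz⟩ := hl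
  obtain ⟨p, hp⟩ := LI7.main3 h6 hm (key v hv)
    ⟨x, y, z, hx, hy, hz, hxy, hxz, hyz, key x nx, key y ny, key z nz⟩
  exact ⟨p, planarWithout_of hp⟩

end Pool.Agent.Results.MP_1fb202_co.FewClawNeighbours
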