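import Pool.Agent.LD6.F5

/-!
# Isolated claw centres in 6-connected graphs without a `K₆` minor

Let `G` be a finite 6-connected graph without a `K₆` minor. Either `G` is the cone over the
icosahedron, or every centre of an induced claw is at distance at most two from another one.
-/

set_option autoImplicit false

namespace Pool.Agent.Results.MP_1fb202_co.IsolatedClawCentre

open Pool.Agent.LG6 Pool.Agent.LD6

/-- `v` is the centre of an induced claw `K_{1,3}`: it has three pairwise non-adjacent neighbours. -/
def IsClawCentre {V : Type} (G : SimpleGraph V) (v : V) : Prop :=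
  ∃ a b c : V, G.Adj v a ∧ G.Adj v b ∧ G.Adj v c ∧ a ≠ b ∧ a ≠ c ∧ b ≠ c ∧
    ¬ G.Adj a b ∧ ¬ G.Adj a c ∧ ¬ G.Adj b c

/-- A finite 6-connected graph without a `K₆` minor is the cone over the icosahedron, or every claw
centre of it is adjacent to, or has a common neighbour with, another claw centre. -/
theorem result (V : Type) [Fintype V] (G : SimpleGraph V) (h6 : IsKConnected 6 G)
    (hm : ¬ HasCompleteMinor 6 G) :
    Nonempty (G ≃g coneIco) ∨
      ∀ w : V, IsClawCentre G w → ∃ u : V, u ≠ w ∧ IsClawCentre G u ∧
        (G.Adj w u ∨ ∃ x : V, G.Adj w x ∧ G.Adj x u) := by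
  classical
  have key : ∀ x, ¬ IsClawCentre G x → NC G x := by
    intro x hx a b c ha hb hc hab hac hbc
    by_contra hno
    push Not at hno
    exact hx ⟨a, b, c, ha, hb, hc, hab, hac, hbc, hno.1, hno.2.1, hno.2.2⟩
  by_cases hI : Nonempty (G ≃g coneIco)
  · exact Or.inl hI
  · right
    intro w _
    by_contra hno
    push Not at hno
    apply hI
    refine iso_main h6 hm (w := w) ?_ ?_
    · intro x hx
      apply key
      intro hx'
      exact (hno x hx.ne.symm hx').1 hx
    · intro x z hx hxz hz
      apply key
      intro hz'
      exact (hno z hz hz').2 x hx hxz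

end Pool.Agent.Results.MP_1fb202_co.IsolatedClawCentre
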