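import Pool.Agent.LR5.Deg6
import Pool.Agent.LR5.Deg7
import Pool.Agent.LR5.TriSum

/-!
# Vertices of degree six or seven in many triangles

Let `G` be a finite 6-connected graph without a `K₆` minor, with a vertex of degree six in at least
nine triangles, or of degree seven in at least eleven triangles. Then `G` is apex: some neighbour `p`
of that vertex is such that `G - p` has neither a `K₅` nor a `K₃,₃` minor.
-/

set_option autoImplicit false

namespace Pool.Agent.Results.MP_1fb202_co.ManyTriangles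

open Pool.Agent.LG6

/-- The number of triangles of `G` that contain `v`, counted by their edges opposite to `v`. -/
noncomputable def trianglesAt {V : Type} (G : SimpleGraph V) (v : V) : ℕ :=
  {e : Sym2 V | e ∈ G.edgeSet ∧ ∀ x ∈ e, G.Adj v x}.ncard

/-- `G - p` has neither a `K₅` minor nor a `K₃,₃` minor, that is (Wagner) `G - p` is planar. -/
def PlanarWithout {V : Type} (G : SimpleGraph V) (p : V) : Prop :=
  (¬ ∃ B : Fin 5 → Set V,
      (∀ i, p ∉ B i) ∧
      (∀ i, (G.induce (B i)).Connected) ∧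
      (∀ i j, i ≠ j → Disjoint (B i) (B j)) ∧
      (∀ i j, i ≠ j → ∃ x ∈ B i, ∃ y ∈ B j, G.Adj x y)) ∧
  (¬ ∃ B : Fin 6 → Set V,
      (∀ i, p ∉ B i) ∧
      (∀ i, (G.induce (B i)).Connected) ∧
      (∀ i j, i ≠ j → Disjoint (B i) (B j)) ∧
      (∀ i j : Fin 6, i.val < 3 → 3 ≤ j.val → ∃ x ∈ B i, ∃ y ∈ B j, G.Adj x y))

theorem planarWithout_of {V : Type} {G : SimpleGraph V} {p : V} (h : LR5.NoMin G {p}) :
    PlanarWithout G p := by
  constructor
  · rintro ⟨B, hp, hc, hd, ha⟩
    exact h.1 ⟨B, ⟨hc, hd, ha⟩, fun i => Set.disjoint_singleton_right.2 (hp i)⟩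
  · rintro ⟨B, hp, hc, hd, ha⟩
    refine h.2 ⟨fun i => B (Fin.castAdd 3 i), fun i => B (Fin.natAdd 3 i), ?_, fun i =>
      Set.disjoint_singleton_right.2 (hp _), fun i => Set.disjoint_singleton_right.2 (hp _)⟩
    refine ⟨fun i => hc _, fun i => hc _, fun i j hij => hd _ _ ?_, fun i j hij => hd _ _ ?_,
      fun i j => hd _ _ ?_, fun i j => ha _ _ ?_ ?_⟩
    · intro h'
      exact hij (Fin.castAdd_injective 3 3 h')
    · intro h'
      exact hij (Fin.natAdd_injective 3 3 h')
    · intro h'
      have h1 := congrArg Fin.val h'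
      simp only [Fin.val_castAdd, Fin.val_natAdd] at h1
      omega
    · simp only [Fin.val_castAdd]
      omega
    · simp only [Fin.val_natAdd]
      omega

/-- A 6-connected graph without a `K₆` minor that has a vertex `v` of degree six in at least nine
triangles, or of degree seven in at least eleven triangles, is apex, the apex being a neighbour
of `v`. -/
theorem result (V : Type) [Fintype V] (G : SimpleGraph V) (h6 : IsKConnected 6 G)
    (hm : ¬ HasCompleteMinor 6 G) (v : V)
    (hv : ((G.neighborSet v).ncard = 6 ∧ 9 ≤ trianglesAt G v) ∨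
      ((G.neighborSet v).ncard = 7 ∧ 11 ≤ trianglesAt G v)) :
    ∃ p : V, G.Adj v p ∧ PlanarWithout G p := by
  classical
  set N := Finset.univ.filter (fun x => G.Adj v x) with hNd
  have hN : ∀ x, x ∈ N ↔ G.Adj v x := fun x => by
    rw [hNd, Finset.mem_filter]
    exact ⟨fun h => h.2, fun h => ⟨Finset.mem_univ _, h⟩⟩
  have hc : (G.neighborSet v).ncard = N.card := by
    have h2 : G.neighborSet v = ↑N := by
      ext x
      rw [SimpleGraph.mem_neighborSet, Finset.mem_coe, hN]
    rw [h2, Set.ncard_coe_finset]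
  have ht := LR5.tri_sum G v N hN
  have ht' : LR5.tri G v = trianglesAt G v := rfl
  rw [hc] at hv
  rcases hv with ⟨h1, h2⟩ | ⟨h1, h2⟩
  · obtain ⟨p, hp, h⟩ := LR5.deg6 h6 hm v N hN h1 (by omega) ⟨LR5.tri G v, by omega⟩
    exact ⟨p, (hN p).1 hp, planarWithout_of h⟩
  · obtain ⟨p, hp, h⟩ := LR5.deg7 h6 hm v N hN h1 (by omega)
    exact ⟨p, (hN p).1 hp, planarWithout_of h⟩

end Pool.Agent.Results.MP_1fb202_co.ManyTriangles
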